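import Pool.Agent.Helper31.LQ.Stmt

/-!
# The class of polytopes of the final statement
-/

open Set

namespace Pool.Agent.Helper31.LW

/-- `K` is the convex hull of `n + k` points, `k ≥ 1`, which can be divided into `k` groups (by
`g`) such that the convex hulls of the groups have a common point `p`. -/
def Grouped (n : ℕ) {V : Type} [AddCommGroup V] [Module ℝ V] (K : Set V) : Prop :=
  ∃ k : ℕ, 1 ≤ k ∧ ∃ (x : Fin (n + k) → V) (g : Fin (n + k) → Fin k) (p : V),
    K = convexHull ℝ (range x) ∧ ∀ j : Fin k, p ∈ convexHull ℝ (x '' {a | g a = j})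

end Pool.Agent.Helper31.LW
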