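import Pool.Agent.Helper31.LW.Asm
import Pool.Agent.Helper31.LW.Stmt

/-!
# The final statement
-/

open MeasureTheory Set
open scoped ENNReal Matrix
open Pool.Agent.Helper47.AQ (IsBody IsSimplex)
open Pool.Agent.Helper67.LM (T body_T simplex_T)

noncomputable section

namespace Pool.Agent.Helper31.LW

open Pool.Agent.Helper31.LQ

variable {n : ℕ}

/-- The equality case near the simplex (from the theorem on local minimality). -/
theorem loc_eq (hCO : CO) (hD0B : D0B) (hLOCAL : LOCAL) (hG2 : G2) (hFKH : FKH) (hAFFJ : AFFJ)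
    (hQ0P : Q0P) (hJFIN : JFIN) (d : ℕ) (hd : 1 ≤ d) (hdn : d < n) :
    ∃ ε : ℝ, 0 < ε ∧ ∀ K : Set (Fin n → ℝ), IsBody K → ∀ D : Set (Fin n → ℝ),
      IsSimplex D → K ⊆ D → (1 - ε) * (volume D).toReal ≤ (volume K).toReal →
      Jq d K = Jq d (T (Fin n)) → IsSimplex K := by
  have hr0 : 0 < (d : ℝ) / ((n : ℝ) - 1) := by
    have h1 : (1 : ℝ) ≤ d := by exact_mod_cast hd
    have h2 : (2 : ℝ) ≤ n := by
      have : 2 ≤ n := by omega
      exact_mod_cast this
    exact div_pos (by linarith) (by linarith)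
  set c : ℝ := (d : ℝ) / ((n : ℝ) - 1) / 2 with hc
  have hc0 : 0 < c := by positivity
  obtain ⟨ε, hε, h⟩ := gMAIN hCO hD0B hLOCAL hG2 hFKH hAFFJ hQ0P n d hd hdn c hc0.le (by linarith)
  refine ⟨ε, hε, fun K hK D hD hKD hvol hJ => ?_⟩
  obtain ⟨D', hD', hKD', hineq⟩ := h K hK D hD hKD hvol
  have hQ1 : (1 : Matrix (Fin n) (Fin n) ℝ).PosDef := (hQ0P n d).2.1
  obtain ⟨hj1, hj2⟩ := hJFIN n d hd hdn.le (T (Fin n)) body_T 1 hQ1
  have hT0 : Jq d (T (Fin n)) ≠ 0 := by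
    have := (body_T (ι := Fin n)).vol_pos
    exact mul_ne_zero (pow_ne_zero _ (ENNReal.toReal_pos_iff.1 this).1.ne') hj1.ne'
  have hTt : Jq d (T (Fin n)) ≠ ⊤ :=
    ENNReal.mul_ne_top (ENNReal.pow_ne_top body_T.vol_ne_top) hj2.ne
  have h1 : ENNReal.ofReal (1 + c * (1 - (volume K).toReal / (volume D').toReal)) *
      Jq d (T (Fin n)) ≤ Jq d K := hineq
  rw [hJ] at h1
  have h2 : ENNReal.ofReal (1 + c * (1 - (volume K).toReal / (volume D').toReal)) ≤ 1 := by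
    by_contra hcon
    push Not at hcon
    have h3 : 1 * Jq d (T (Fin n)) <
        ENNReal.ofReal (1 + c * (1 - (volume K).toReal / (volume D').toReal)) *
        Jq d (T (Fin n)) := ENNReal.mul_lt_mul_left hT0 hTt hcon
    rw [one_mul] at h3
    exact absurd h1 (not_le.2 h3)
  have h3 : 1 + c * (1 - (volume K).toReal / (volume D').toReal) ≤ 1 := by
    rwa [ENNReal.ofReal_le_one] at h2
  have hvD : 0 < (volume D').toReal := hD'.isBody.vol_pos
  have h4 : (volume D').toReal ≤ (volume K).toReal := by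
    have h5 : 1 ≤ (volume K).toReal / (volume D').toReal := by
      by_contra hcon
      push Not at hcon
      have := mul_pos hc0 (sub_pos.2 hcon)
      linarith
    rwa [one_le_div hvD] at h5
  rw [Pool.Agent.Helper67.LM.eq_of_vol_eq hK hD'.isBody hKD' h4]
  exact hD'

/-- The convex hull of `n + 2` points is in the class (Radon). -/
theorem radon (x : Fin (n + 2) → E n) : Grouped n (convexHull ℝ (range x)) := by
  classical
  have hnot : ¬ AffineIndependent ℝ x := by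
    intro h
    have h1 := h.card_le_finrank_succ
    have h2 : Module.finrank ℝ (vectorSpan ℝ (range x)) ≤ Module.finrank ℝ (E n) :=
      Submodule.finrank_le _
    rw [finrank_euclideanSpace_fin] at h2
    rw [Fintype.card_fin] at h1
    omega
  obtain ⟨I, p, hp1, hp2⟩ := Convex.radon_partition hnot
  refine ⟨2, by norm_num, x, fun a => if a ∈ I then 0 else 1, p, rfl, fun j => ?_⟩
  fin_cases j
  · have : {a : Fin (n + 2) | (if a ∈ I then (0 : Fin 2) else 1) = 0} = I := by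
      ext a
      by_cases ha : a ∈ I <;> simp [ha]
    show p ∈ convexHull ℝ (x '' {a : Fin (n + 2) | (if a ∈ I then (0 : Fin 2) else 1) = 0})
    rw [this]
    exact hp1
  · have : {a : Fin (n + 2) | (if a ∈ I then (0 : Fin 2) else 1) = 1} = Iᶜ := by
      ext a
      by_cases ha : a ∈ I <;> simp [ha]
    show p ∈ convexHull ℝ (x '' {a : Fin (n + 2) | (if a ∈ I then (0 : Fin 2) else 1) = 1})
    rw [this]
    exact hp2

/-- The inequality and the case of equality in coordinates. -/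
theorem few_coord (hCO : CO) (hD0B : D0B) (hLOCAL : LOCAL) (hG2 : G2) (hFKH : FKH) (hAFFJ : AFFJ)
    (hQ0P : Q0P) (hJFIN : JFIN) (hXL : XL) (hXFB : XFB) (hXV : XV) (hMYK : MYK) (hSPX : SPX)
    (hNSPX : NSPX) (hNEARX : NEARX) (hNORM : NORM) (d : ℕ) (hd : 1 ≤ d) (hdn : d < n)
    (K : Set (Fin n → ℝ)) (hK : IsBody K) (hG : Grouped n K) :
    Jq d (T (Fin n)) ≤ Jq d K ∧ (Jq d (T (Fin n)) = Jq d K ↔ IsSimplex K) := by
  obtain ⟨k, hk, x, g, p, hKx, hp⟩ := hG
  obtain ⟨g', w, A, hw, hA⟩ := hNORM n k hk x g p (by rw [← hKx]; exact hK.int) hp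
  rw [← hKx] at hA
  have hn : 1 ≤ n := by omega
  have hb : IsBody (NF g' w) := body_NF hXL hXFB g' w hw ⟨0, hn⟩
  have hJ : Jq d K = Jq d (NF g' w) := by
    rw [hA]
    exact hAFFJ n d hd hdn.le A _ hb.comp
  have h1 := ineq_NF hXL hXFB hXV hMYK hAFFJ hSPX hd hdn g' _ w hw rfl
  have h2 := eq_NF hXL hXFB hXV hMYK hAFFJ hSPX hNSPX hNEARX hd hdn
    (loc_eq hCO hD0B hLOCAL hG2 hFKH hAFFJ hQ0P hJFIN d hd hdn) g' _ w hw rfl
  rw [hJ]
  refine ⟨h1, fun h => ?_, fun h => ?_⟩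
  · rw [hA]
    exact (h2 h.symm).affine A
  · rw [← hJ]
    exact (simplex_value hAFFJ hd hdn h).symm

theorem few (hCO : CO) (hD0B : D0B) (hLOCAL : LOCAL) (hG2 : G2) (hFKH : FKH) (hAFFJ : AFFJ)
    (hQ0P : Q0P) (hJFIN : JFIN) (hTR : TR) (hOFF : OFF) (hXL : XL) (hXFB : XFB) (hXV : XV)
    (hMYK : MYK) (hSPX : SPX) (hNSPX : NSPX) (hNEARX : NEARX) (hNORM : NORM)
    (n i : ℕ) (hi : 1 ≤ i) (hin : i < n) (K : Set (E n)) (hK : Body K) (hG : Grouped n K) :
    aS n i * Phi n i K ≤ kap n ^ (((n : ℝ) - i) / n) * (volume K).toReal ^ ((i : ℝ) / n) ∧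
    (aS n i * Phi n i K = kap n ^ (((n : ℝ) - i) / n) * (volume K).toReal ^ ((i : ℝ) / n) ↔
      Splx K) := by
  have hn : 1 ≤ n := by omega
  obtain ⟨c0, hc0, hc0t, hoff⟩ := hOFF n i hi hin
  have hQ1 : (1 : Matrix (Fin n) (Fin n) ℝ).PosDef := (hQ0P n i).2.1
  have hS : Splx (stdS n) := (hTR n (stdS n)).2.2.2.2.1
  have hSb : Body (stdS n) := (hTR n (stdS n)).2.2.2.2.2 hS
  have hfact : ∀ K : Set (E n), Body K → 0 < (volume K).toReal ∧ volume K ≠ ⊤ ∧
      0 < (mom n i K).toReal ∧ mom n i K ≠ ⊤ := by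
    intro K hK
    obtain ⟨h1, -, h3, -⟩ := hTR n K
    have hb := h1.1 hK
    have hj := hJFIN n i hi hin.le _ hb 1 hQ1
    have hmk := hoff K hK
    have hlt : mom n i K < ⊤ := by
      rw [hmk]
      exact ENNReal.mul_lt_top hc0t hj.2
    refine ⟨?_, ?_, ?_, hlt.ne⟩
    · rw [← h3]; exact hb.vol_pos
    · rw [← h3]; exact hb.vol_ne_top
    · refine ENNReal.toReal_pos ?_ hlt.ne
      rw [hmk]
      exact mul_ne_zero hc0.ne' hj.1.ne'
  have hval : ∀ K : Set (E n), Body K → volume K ^ i * mom n i K =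
      c0 * Jq i ((fun x : E n => x.ofLp) '' K) := by
    intro K hK
    unfold Jq
    rw [hoff K hK, (hTR n K).2.2.1]
    ring
  obtain ⟨hvT, hvTt, hmT, hmTt⟩ := hfact _ hSb
  obtain ⟨hv, hvt, hm, hmt⟩ := hfact K hK
  set g : E n → (Fin n → ℝ) := fun x : E n => x.ofLp with hg
  have hKb : IsBody (g '' K) := ((hTR n K).1).1 hK
  -- the class in coordinates
  have hG' : Grouped n (g '' K) := by
    obtain ⟨k, hk, x, γ, p, hKx, hp⟩ := hG
    have him : ∀ s : Set (E n), g '' convexHull ℝ s = convexHull ℝ (g '' s) := fun s =>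
      (WithLp.linearEquiv 2 ℝ (Fin n → ℝ)).toLinearMap.image_convexHull s
    refine ⟨k, hk, fun a => g (x a), γ, g p, ?_, fun j => ?_⟩
    · rw [hKx, him, ← range_comp]
      rfl
    · have h1 : g p ∈ g '' convexHull ℝ (x '' {a | γ a = j}) := ⟨p, hp j, rfl⟩
      rw [him, image_image] at h1
      exact h1
  obtain ⟨h1, h2⟩ := few_coord hCO hD0B hLOCAL hG2 hFKH hAFFJ hQ0P hJFIN hXL hXFB hXV hMYK hSPX
    hNSPX hNEARX hNORM i hi hin (g '' K) hKb hG'
  obtain ⟨hiff1, hiff2⟩ := Phi_iff n i hn K hv hm hvT hmT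
  have hT1 : volume (stdS n) ^ i * mom n i (stdS n) = c0 * Jq i (T (Fin n)) := by
    rw [hval _ hSb, (hTR n (stdS n)).2.2.2.1]
  have hr1 : (volume (stdS n)).toReal ^ i * (mom n i (stdS n)).toReal =
      (c0 * Jq i (T (Fin n))).toReal := by
    rw [← hT1, ENNReal.toReal_mul, ENNReal.toReal_pow]
  have hr2 : (volume K).toReal ^ i * (mom n i K).toReal = (c0 * Jq i (g '' K)).toReal := by
    rw [← hval _ hK, ENNReal.toReal_mul, ENNReal.toReal_pow]
  have hf1 : c0 * Jq i (T (Fin n)) ≠ ⊤ := by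
    rw [← hT1]
    exact ENNReal.mul_ne_top (ENNReal.pow_ne_top hvTt) hmTt
  have hf2 : c0 * Jq i (g '' K) ≠ ⊤ := by
    rw [← hval _ hK]
    exact ENNReal.mul_ne_top (ENNReal.pow_ne_top hvt) hmt
  refine ⟨hiff1.2 ?_, ?_⟩
  · rw [hr1, hr2]
    exact ENNReal.toReal_mono hf2 (mul_le_mul_right h1 _)
  · rw [hiff2, hr1, hr2, ENNReal.toReal_eq_toReal_iff' hf1 hf2,
      ENNReal.mul_right_inj hc0.ne' hc0t.ne, h2]
    exact ((hTR n K).2.1).symm

end Pool.Agent.Helper31.LW
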