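import Pool.Agent.Helper31.LQ.All
import Pool.Agent.Helper31.LW.Final
import Pool.Agent.Helper4.LW.CHART
import Pool.Agent.Helper14.LW.SPL
import Pool.Agent.Helper78.LW.VPOS
import Pool.Agent.Helper15.LW.GAM
import Pool.Agent.Helper57.LW.CHF
import Pool.Agent.Helper71.LW.CONV
import Pool.Agent.Helper17.LW.REFL
import Pool.Agent.Helper13.LW.PLE
import Pool.Agent.Helper45.LW.PSF
import Pool.Agent.Helper23.LW.MY0
import Pool.Agent.Helper91.LW.MYK
import Pool.Agent.Helper27.LW.XL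
import Pool.Agent.Helper43.LW.XFB
import Pool.Agent.Helper46.LW.XV
import Pool.Agent.Helper93.LW.NEARX
import Pool.Agent.Helper24.LW.NORM
import Pool.Agent.Helper53.LW.SPX
import Pool.Agent.Helper79.LW.NSPX

/-!
# All goals of project LW
-/

open MeasureTheory Set

noncomputable section

namespace Pool.Agent.Helper31.LW.All

open Pool.Agent.Helper31.LQ

theorem tCHART : CHART :=
  Pool.Agent.Helper4.LW.gCHART Pool.Agent.Helper31.LQ.All.tLMUL Pool.Agent.Helper31.LQ.All.tGRM Pool.Agent.Helper31.LQ.All.tG2A Pool.Agent.Helper31.LQ.All.tCST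

theorem tSPL : SPL :=
  Pool.Agent.Helper14.LW.gSPL 

theorem tVPOS : VPOS :=
  Pool.Agent.Helper78.LW.gVPOS 

theorem tGAM : GAM :=
  Pool.Agent.Helper15.LW.gGAM 

theorem tCHF : CHF :=
  Pool.Agent.Helper57.LW.gCHF tCHART tSPL tVPOS tGAM Pool.Agent.Helper31.LQ.All.tFKH

theorem tCONV : CONV :=
  Pool.Agent.Helper71.LW.gCONV 

theorem tREFL : REFL :=
  Pool.Agent.Helper17.LW.gREFL 

theorem tPLE : PLE :=
  Pool.Agent.Helper13.LW.gPLE 

theorem tPSF : PSF :=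
  Pool.Agent.Helper45.LW.gPSF tCONV tREFL tPLE tVPOS

theorem tMY0 : MY0 :=
  Pool.Agent.Helper23.LW.gMY0 tCHF tPSF tVPOS Pool.Agent.Helper31.LQ.All.tJFIN

theorem tMYK : MYK :=
  Pool.Agent.Helper91.LW.gMYK tMY0 Pool.Agent.Helper31.LQ.All.tAFFJ

theorem tXL : XL :=
  Pool.Agent.Helper27.LW.gXL 

theorem tXFB : XFB :=
  Pool.Agent.Helper43.LW.gXFB tXL

theorem tXV : XV :=
  Pool.Agent.Helper46.LW.gXV 

theorem tNEARX : NEARX :=
  Pool.Agent.Helper93.LW.gNEARX tXV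

theorem tNORM : NORM :=
  Pool.Agent.Helper24.LW.gNORM 

theorem tSPX : SPX :=
  Pool.Agent.Helper53.LW.gSPX 

theorem tNSPX : NSPX :=
  Pool.Agent.Helper79.LW.gNSPX 

theorem tfew (n i : ℕ) (hi : 1 ≤ i) (hin : i < n) (K : Set (E n)) (hK : Body K)
    (hG : Grouped n K) :
    aS n i * Phi n i K ≤ kap n ^ (((n : ℝ) - i) / n) * (volume K).toReal ^ ((i : ℝ) / n) ∧
    (aS n i * Phi n i K = kap n ^ (((n : ℝ) - i) / n) * (volume K).toReal ^ ((i : ℝ) / n) ↔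
      Splx K) :=
  Pool.Agent.Helper31.LW.few Pool.Agent.Helper31.LQ.All.tCO Pool.Agent.Helper31.LQ.All.tD0B Pool.Agent.Helper31.LQ.All.tLOCAL Pool.Agent.Helper31.LQ.All.tG2 Pool.Agent.Helper31.LQ.All.tFKH Pool.Agent.Helper31.LQ.All.tAFFJ Pool.Agent.Helper31.LQ.All.tQ0P Pool.Agent.Helper31.LQ.All.tJFIN Pool.Agent.Helper31.LQ.All.tTR Pool.Agent.Helper31.LQ.All.tOFF tXL tXFB tXV tMYK tSPX tNSPX tNEARX tNORM
    n i hi hin K hK hG

end Pool.Agent.Helper31.LW.All
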