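import Pool.Agent.Helper31.LW.Goals
import Pool.Agent.Helper31.LQ.Final3

/-!
# Assembly: the inequality for the normal forms
-/

open MeasureTheory Set
open scoped ENNReal Matrix
open Pool.Agent.Helper47.AQ (IsBody IsSimplex)
open Pool.Agent.Helper67.LM (T body_T simplex_T)

noncomputable section

namespace Pool.Agent.Helper31.LW

open Pool.Agent.Helper31.LQ

variable {n k : ℕ}

/-- `V(K)^d F(K)`. -/
def Jq (d : ℕ) (K : Set (Fin n → ℝ)) : ℝ≥0∞ := volume K ^ d * IQ 1 (fK d K)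

/-- The weights after the removal of `w_q`. -/
def wr (g : Fin n → Fin k) (w : Fin n → ℝ) (q : Fin n) : Fin n → ℝ :=
  fun i => if i = q then 0 else if g i = g q then w i / (1 + w q) else w i

theorem wr_q (g : Fin n → Fin k) (w : Fin n → ℝ) (q : Fin n) : wr g w q q = 0 := by simp [wr]

theorem wr_nonneg (g : Fin n → Fin k) (w : Fin n → ℝ) (q : Fin n) (hw : ∀ i, 0 ≤ w i) (i : Fin n) :
    0 ≤ wr g w q i := by
  unfold wr
  split_ifs
  · exact le_rfl
  · exact div_nonneg (hw i) (by linarith [hw q])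
  · exact hw i

theorem ws_wr (g : Fin n → Fin k) (w : Fin n → ℝ) (q : Fin n) (hw : ∀ i, 0 ≤ w i) :
    ws g (wr g w q) q (w q / (1 + w q)) = w := by
  have h1 : 0 < 1 + w q := by linarith [hw q]
  have h2 : 1 - w q / (1 + w q) = 1 / (1 + w q) := by field_simp; ring
  funext i
  unfold ws wr
  rw [h2]
  by_cases hi : i = q
  · subst hi
    simp only [if_true]
    field_simp
  · simp only [if_neg hi]
    by_cases hg : g i = g q
    · simp only [if_pos hg]
      field_simp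
    · simp only [if_neg hg]

theorem ws_zero (g : Fin n → Fin k) (w : Fin n → ℝ) (q : Fin n) (hq : w q = 0) :
    ws g w q 0 = w := by
  funext i
  unfold ws
  by_cases hi : i = q
  · subst hi
    simp [hq]
  · simp only [if_neg hi, sub_zero, div_one, ite_self]

theorem linear_image_eq (S : (Fin n → ℝ) ≃ₗ[ℝ] (Fin n → ℝ)) (K : Set (Fin n → ℝ)) :
    S.toAffineEquiv '' K = S '' K := rfl

theorem symm_image (S : (Fin n → ℝ) ≃ₗ[ℝ] (Fin n → ℝ)) (K : Set (Fin n → ℝ)) :
    S.symm '' (S '' K) = K := by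
  rw [image_image]
  simp

theorem body_of_image {S : (Fin n → ℝ) ≃ₗ[ℝ] (Fin n → ℝ)} {K : Set (Fin n → ℝ)}
    (h : IsBody (S '' K)) : IsBody K := by
  have := h.affine S.symm.toAffineEquiv
  rwa [linear_image_eq, symm_image] at this

theorem simplex_image (S : (Fin n → ℝ) ≃ₗ[ℝ] (Fin n → ℝ)) {K : Set (Fin n → ℝ)}
    (h : IsSimplex K) : IsSimplex (S '' K) := h.affine S.toAffineEquiv

theorem simplex_of_image {S : (Fin n → ℝ) ≃ₗ[ℝ] (Fin n → ℝ)} {K : Set (Fin n → ℝ)}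
    (h : IsSimplex (S '' K)) : IsSimplex K := by
  have := simplex_image S.symm h
  rwa [symm_image] at this

theorem J_linear (hAFFJ : AFFJ) {d : ℕ} (hd : 1 ≤ d) (hdn : d ≤ n)
    (S : (Fin n → ℝ) ≃ₗ[ℝ] (Fin n → ℝ)) {K : Set (Fin n → ℝ)} (hK : IsCompact K) :
    Jq d (S '' K) = Jq d K := hAFFJ n d hd hdn S.toAffineEquiv K hK

theorem body_NF (hXL : XL) (hXFB : XFB) (g : Fin n → Fin k) (w : Fin n → ℝ) (hw : ∀ i, 0 ≤ w i)
    (q : Fin n) : IsBody (NF g w) := by
  have h1 : 0 < 1 + w q := by linarith [hw q]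
  have hs0 : 0 ≤ w q / (1 + w q) := div_nonneg (hw q) h1.le
  have hs1 : w q / (1 + w q) < 1 := by rw [div_lt_one h1]; linarith
  obtain ⟨S, hS⟩ := hXL n k g (wr g w q) q (wr_nonneg g w q hw) (wr_q g w q) _ hs0 hs1
  rw [ws_wr g w q hw] at hS
  have hb := (hXFB n k g (wr g w q) q (wr_nonneg g w q hw) (wr_q g w q)).body
    (w q / (1 + w q)) ⟨hs0, hs1.le⟩
  rw [← hS] at hb
  exact body_of_image hb

/-- The facts of the move. -/
theorem step (hXL : XL) (hXFB : XFB) (hXV : XV) (hMYK : MYK) (hAFFJ : AFFJ) {d : ℕ} (hd : 1 ≤ d)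
    (hdn : d ≤ n) (g : Fin n → Fin k) (w : Fin n → ℝ) (hw : ∀ i, 0 ≤ w i) (q : Fin n)
    (hq : w q = 0) (s : ℝ) (hs0 : 0 ≤ s) (hs1 : s < 1) :
    IsBody (XF g w q s) ∧ Jq d (XF g w q s) = Jq d (NF g (ws g w q s)) ∧
    Jq d (XF g w q 0) = Jq d (NF g w) ∧ Jq d (XF g w q 0) ≤ Jq d (XF g w q s) ∧
    (0 < s → Jq d (XF g w q s) = Jq d (XF g w q 0) → ∀ s' : ℝ, 0 ≤ s' → s' < 1 →
      Jq d (XF g w q s') = Jq d (XF g w q 0)) := by
  have hR := hXFB n k g w q hw hq
  have hws : ∀ s : ℝ, 0 ≤ s → s < 1 → ∀ i, 0 ≤ ws g w q s i := by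
    intro s hs0 hs1 i
    have : 0 < 1 - s := by linarith
    unfold ws
    split_ifs
    · exact div_nonneg hs0 this.le
    · exact div_nonneg (hw i) this.le
    · exact hw i
  have hJ : ∀ s : ℝ, 0 ≤ s → s < 1 → Jq d (XF g w q s) = Jq d (NF g (ws g w q s)) := by
    intro s hs0 hs1
    obtain ⟨S, hS⟩ := hXL n k g w q hw hq s hs0 hs1
    rw [← hS, J_linear hAFFJ hd hdn S (body_NF hXL hXFB g _ (hws s hs0 hs1) q).comp]
  have hJ0 := hJ 0 le_rfl one_pos
  rw [ws_zero g w q hq] at hJ0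
  have hb0 := hR.body 0 ⟨le_rfl, zero_le_one⟩
  have hv0 : volume (XF g w q 0) ^ d ≠ 0 := by
    have := hb0.vol_pos
    exact pow_ne_zero _ (ENNReal.toReal_pos_iff.1 this).1.ne'
  have hvt : volume (XF g w q 0) ^ d ≠ ⊤ := ENNReal.pow_ne_top hb0.vol_ne_top
  have hval : ∀ s : ℝ, 0 ≤ s → s < 1 → Jq d (XF g w q s) =
      volume (XF g w q 0) ^ d * IQ 1 (fK d (XF g w q s)) := by
    intro s hs0 hs1
    unfold Jq
    rw [hXV n k g w q hw hq s ⟨hs0, hs1.le⟩]
  obtain ⟨hm1, hm2⟩ := hMYK n d hd hdn q _ hR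
  refine ⟨hR.body s ⟨hs0, hs1.le⟩, hJ s hs0 hs1, hJ0, ?_, fun hs heq s' hs'0 hs'1 => ?_⟩
  · rw [hval s hs0 hs1, hval 0 le_rfl one_pos]
    exact mul_le_mul_right (hm1 s ⟨hs0, hs1.le⟩) _
  · rw [hval s hs0 hs1, hval 0 le_rfl one_pos] at heq
    have h1 : IQ 1 (fK d (XF g w q s)) = IQ 1 (fK d (XF g w q 0)) :=
      (ENNReal.mul_right_inj hv0 hvt).1 heq
    rw [hval s' hs'0 hs'1, hval 0 le_rfl one_pos, hm2 s ⟨hs, hs1⟩ h1 s' ⟨hs'0, hs'1.le⟩]

theorem supp_lt (g : Fin n → Fin k) (w : Fin n → ℝ) (hw : ∀ i, 0 ≤ w i) (q : Fin n)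
    (hq : 0 < w q) :
    (Finset.univ.filter fun i => 0 < wr g w q i).card < (Finset.univ.filter fun i => 0 < w i).card := by
  refine Finset.card_lt_card (Finset.ssubset_iff_subset_ne.2 ⟨?_, ?_⟩)
  · intro i hi
    rw [Finset.mem_filter] at hi ⊢
    refine ⟨Finset.mem_univ _, ?_⟩
    have h := hi.2
    unfold wr at h
    split_ifs at h with h1 h2
    · exact absurd h (lt_irrefl _)
    · have h3 : 0 < 1 + w q := by linarith
      by_contra hcon
      have : w i = 0 := le_antisymm (not_lt.1 hcon) (hw i)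
      rw [this, zero_div] at h
      exact absurd h (lt_irrefl _)
    · exact h
  · intro h
    have h1 : q ∈ Finset.univ.filter fun i => 0 < w i :=
      Finset.mem_filter.2 ⟨Finset.mem_univ _, hq⟩
    rw [← h, Finset.mem_filter, wr_q] at h1
    exact absurd h1.2 (lt_irrefl _)

/-- The inequality for the normal forms. -/
theorem ineq_NF (hXL : XL) (hXFB : XFB) (hXV : XV) (hMYK : MYK) (hAFFJ : AFFJ) (hSPX : SPX)
    {d : ℕ} (hd : 1 ≤ d) (hdn : d < n) (g : Fin n → Fin k) :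
    ∀ (N : ℕ) (w : Fin n → ℝ), (∀ i, 0 ≤ w i) → (Finset.univ.filter fun i => 0 < w i).card = N →
      Jq d (T (Fin n)) ≤ Jq d (NF g w) := by
  intro N
  induction N using Nat.strong_induction_on with
  | _ N ih =>
    intro w hw hN
    by_cases hex : ∃ q, 0 < w q
    · obtain ⟨q, hq⟩ := hex
      have h1 : 0 < 1 + w q := by linarith
      have hs0 : 0 < w q / (1 + w q) := div_pos hq h1
      have hs1 : w q / (1 + w q) < 1 := by rw [div_lt_one h1]; linarith
      have hlt := supp_lt g w hw q hq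
      rw [hN] at hlt
      have h2 := ih _ hlt (wr g w q) (wr_nonneg g w q hw) rfl
      obtain ⟨-, a2, a3, a4, -⟩ := step hXL hXFB hXV hMYK hAFFJ hd hdn.le g (wr g w q)
        (wr_nonneg g w q hw) q (wr_q g w q) _ hs0.le hs1
      rw [ws_wr g w q hw] at a2
      rw [a2, a3] at a4
      exact h2.trans a4
    · have hn : 1 ≤ n := by omega
      have h0 : ∀ i, w i = 0 := fun i => le_antisymm (not_lt.1 fun h => hex ⟨i, h⟩) (hw i)
      have hs := hSPX n k hn g w hw ⟨g ⟨0, hn⟩, fun i _ => h0 i⟩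
      exact (simplex_value hAFFJ hd hdn hs).ge

/-- The case of equality for the normal forms. -/
theorem eq_NF (hXL : XL) (hXFB : XFB) (hXV : XV) (hMYK : MYK) (hAFFJ : AFFJ) (hSPX : SPX)
    (hNSPX : NSPX) (hNEARX : NEARX) {d : ℕ} (hd : 1 ≤ d) (hdn : d < n)
    (hloc : ∃ ε : ℝ, 0 < ε ∧ ∀ K : Set (Fin n → ℝ), IsBody K → ∀ D : Set (Fin n → ℝ),
      IsSimplex D → K ⊆ D → (1 - ε) * (volume D).toReal ≤ (volume K).toReal →
      Jq d K = Jq d (T (Fin n)) → IsSimplex K) (g : Fin n → Fin k) :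
    ∀ (N : ℕ) (w : Fin n → ℝ), (∀ i, 0 ≤ w i) → (Finset.univ.filter fun i => 0 < w i).card = N →
      Jq d (NF g w) = Jq d (T (Fin n)) → IsSimplex (NF g w) := by
  intro N
  induction N using Nat.strong_induction_on with
  | _ N ih =>
    intro w hw hN hJ
    have hn : 1 ≤ n := by omega
    by_cases hex : ∃ q i₂ : Fin n, 0 < w q ∧ 0 < w i₂ ∧ g q ≠ g i₂
    · exfalso
      obtain ⟨q, i₂, hq, hi₂, hg⟩ := hex
      have h1 : 0 < 1 + w q := by linarith
      have hs0 : 0 < w q / (1 + w q) := div_pos hq h1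
      have hs1 : w q / (1 + w q) < 1 := by rw [div_lt_one h1]; linarith
      have hlt := supp_lt g w hw q hq
      rw [hN] at hlt
      set w' := wr g w q with hw'
      have hw'0 : ∀ i, 0 ≤ w' i := wr_nonneg g w q hw
      have hw'q : w' q = 0 := wr_q g w q
      obtain ⟨-, a2, a3, a4, a5⟩ := step hXL hXFB hXV hMYK hAFFJ hd hdn.le g w' hw'0 q hw'q _
        hs0.le hs1
      rw [ws_wr g w q hw] at a2
      have h2 := ineq_NF hXL hXFB hXV hMYK hAFFJ hSPX hd hdn g _ w' hw'0 rfl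
      have h3 : Jq d (NF g w') = Jq d (T (Fin n)) := by
        refine le_antisymm ?_ h2
        rw [← hJ, ← a2, ← a3]
        exact a4
      have h4 : IsSimplex (NF g w') := ih _ hlt w' hw'0 rfl h3
      have h5 : IsSimplex (XF g w' q 0) := by
        obtain ⟨S, hS⟩ := hXL n k g w' q hw'0 hw'q 0 le_rfl one_pos
        rw [ws_zero g w' q hw'q] at hS
        rw [← hS]
        exact simplex_image S h4
      have h6 : Jq d (XF g w' q (w q / (1 + w q))) = Jq d (XF g w' q 0) := by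
        rw [a2, a3, hJ, h3]
      obtain ⟨ε, hε, hl⟩ := hloc
      obtain ⟨s, hs, hs', D, hD, hsub, hvol⟩ := hNEARX n k g w' q hw'0 hw'q h5 ε hε
      have h7 := a5 hs0 h6 s hs.le hs'
      obtain ⟨b1, b2, -, -, -⟩ := step hXL hXFB hXV hMYK hAFFJ hd hdn.le g w' hw'0 q hw'q s
        hs.le hs'
      have h8 : IsSimplex (XF g w' q s) := hl _ b1 D hD hsub hvol (by rw [h7, a3, h3])
      obtain ⟨S, hS⟩ := hXL n k g w' q hw'0 hw'q s hs.le hs'
      rw [← hS] at h8
      have h9 := simplex_of_image h8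
      have hs1' : 0 < 1 - s := by linarith
      refine hNSPX n k g _ ?_ q i₂ ?_ ?_ hg h9
      · intro i
        unfold ws
        split_ifs
        · exact div_nonneg hs.le hs1'.le
        · exact div_nonneg (hw'0 i) hs1'.le
        · exact hw'0 i
      · simp only [ws, if_true]
        exact div_pos hs hs1'
      · have c1 : i₂ ≠ q := fun h => hg (by rw [h])
        have c2 : g i₂ ≠ g q := fun h => hg h.symm
        simp only [ws, if_neg c1, if_neg c2, hw', wr]
        exact hi₂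
    · push Not at hex
      refine hSPX n k hn g w hw ?_
      by_cases hex2 : ∃ q, 0 < w q
      · obtain ⟨q, hq⟩ := hex2
        refine ⟨g q, fun i hi => ?_⟩
        by_contra hcon
        exact hi (hex q i hq (lt_of_le_of_ne (hw i) (Ne.symm hcon))).symm
      · exact ⟨g ⟨0, hn⟩, fun i _ => le_antisymm (not_lt.1 fun h => hex2 ⟨i, h⟩) (hw i)⟩

end Pool.Agent.Helper31.LW
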