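import Pool.Agent.Helper31.LW.Final

/-!
# Hulls of `n` segments with a common point
-/

open Set

noncomputable section

namespace Pool.Agent.Helper31.LW

open Pool.Agent.Helper31.LQ (E)

/-- The convex hull of `n` segments of `ℝ^n` with a common point is in the class. -/
theorem cross (n : ℕ) (hn : 1 ≤ n) (y z : Fin n → E n) (p : E n)
    (h : ∀ j, p ∈ segment ℝ (y j) (z j)) : Grouped n (convexHull ℝ (range y ∪ range z)) := by
  refine ⟨n, hn, Fin.append y z, Fin.append id id, p, ?_, fun j => ?_⟩
  · congr 1
    ext v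
    constructor
    · rintro (⟨a, rfl⟩ | ⟨a, rfl⟩)
      · exact ⟨Fin.castAdd n a, Fin.append_left _ _ _⟩
      · exact ⟨Fin.natAdd n a, Fin.append_right _ _ _⟩
    · rintro ⟨a, rfl⟩
      refine Fin.addCases (fun b => ?_) (fun b => ?_) a
      · rw [Fin.append_left]
        exact Or.inl ⟨b, rfl⟩
      · rw [Fin.append_right]
        exact Or.inr ⟨b, rfl⟩
  · have h1 : convexHull ℝ {y j, z j} ⊆
        convexHull ℝ (Fin.append y z '' {a | Fin.append id id a = j}) := by
      refine convexHull_mono ?_
      rintro v (rfl | rfl)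
      · exact ⟨Fin.castAdd n j, Fin.append_left _ _ _, Fin.append_left _ _ _⟩
      · exact ⟨Fin.natAdd n j, Fin.append_right _ _ _, Fin.append_right _ _ _⟩
    refine h1 ?_
    rw [convexHull_pair]
    exact h j

end Pool.Agent.Helper31.LW
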