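import Pool.Agent.Helper31.LQ.Goals

/-!
# The simplex inequality for all affine quermassintegrals of polytopes with few vertices
(MP_6fb600_gt): definitions

`d` is the `i` of the problem, `lin`, `fK`, `IQ`, `IsBody`, `IsSimplex` are as in project LQ
(`Pool/Agent/Helper31/LQ/Defs.lean`, `Pool/Agent/Helper47/AQ/Defs.lean`).
-/

open MeasureTheory Set
open scoped ENNReal Matrix
open Pool.Agent.Helper47.AQ

noncomputable section

namespace Pool.Agent.Helper31.LW

open Pool.Agent.Helper31.LQ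

/-! ### The chart -/

/-- The columns `e_0, …, e_(d-1), Z_0, …, Z_(m-1)`. -/
def ch {d m : ℕ} (Z : Fin m → Fin d → ℝ) : Fin (d + m) → Fin d → ℝ :=
  Fin.append (fun a => Pi.single a 1) Z

/-- The columns with the first coordinates `b` and the other coordinates `Z`. -/
def top {e m : ℕ} (b : Fin m → ℝ) (Z : Fin m → Fin e → ℝ) : Fin m → Fin (e + 1) → ℝ :=
  fun l => Fin.cons (α := fun _ => ℝ) (b l) (Z l)

/-- The volume of the image of `K` under `(x₀ + b · x'', x' + Z x'')`. -/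
def vN {e m : ℕ} (K : Set (Fin (e + 1 + m) → ℝ)) (Z : Fin m → Fin e → ℝ) (b : Fin m → ℝ) : ℝ :=
  (volume (lin (ch (top b Z)) '' K)).toReal

/-- `∫ exp(-r N(b)) db`. -/
def Ps {e m : ℕ} (K : Set (Fin (e + 1 + m) → ℝ)) (Z : Fin m → Fin e → ℝ) (r : ℝ) : ℝ≥0∞ :=
  ∫⁻ b : Fin m → ℝ, ENNReal.ofReal (Real.exp (-(r * vN K Z b)))

/-! ### Shadow systems -/

/-- The reflection in the coordinate `k`. -/
def rho {n : ℕ} (k : Fin n) (x : Fin n → ℝ) : Fin n → ℝ := Function.update x k (-(x k))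

/-- `L` is contained in the combination `(1 - r) K₀ + r K₁` along the lines parallel to `e_k`. -/
def Fib {n : ℕ} (k : Fin n) (K₀ K₁ L : Set (Fin n → ℝ)) (r : ℝ) : Prop :=
  ∀ z ∈ L, ∃ x ∈ K₀, ∃ y ∈ K₁, (∀ l, l ≠ k → x l = z l ∧ y l = z l) ∧
    z k = (1 - r) * x k + r * y k

/-- A shadow system in the direction `e_k` which joins `X 0` to its reflection. -/
structure RFam {n : ℕ} (k : Fin n) (X : ℝ → Set (Fin n → ℝ)) : Prop where
  body : ∀ t ∈ Icc (0 : ℝ) 1, IsBody (X t)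
  fib : ∀ s ∈ Icc (0 : ℝ) 1, ∀ t ∈ Icc (0 : ℝ) 1, ∀ r ∈ Icc (0 : ℝ) 1,
    Fib k (X s) (X t) (X ((1 - r) * s + r * t)) r
  refl : X 1 = rho k '' X 0

/-! ### The normal form and the move -/

/-- The part of `w` in the block `j`. -/
def wv {n k : ℕ} (g : Fin n → Fin k) (w : Fin n → ℝ) (j : Fin k) : Fin n → ℝ :=
  fun i => if g i = j then w i else 0

/-- The normal form: the convex hull of `e_1, …, e_n` and of the vectors `-w^(j)`. -/
def NF {n k : ℕ} (g : Fin n → Fin k) (w : Fin n → ℝ) : Set (Fin n → ℝ) :=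
  convexHull ℝ (range (fun i : Fin n => (Pi.single i 1 : Fin n → ℝ)) ∪
    range (fun j : Fin k => -(wv g w j)))

/-- `δ = (1 - 2 s)/(1 + W)`, `W` the sum of `w` over the block of `q`. -/
def dl {n k : ℕ} (g : Fin n → Fin k) (w : Fin n → ℝ) (q : Fin n) (s : ℝ) : ℝ :=
  (1 - 2 * s) / (1 + ∑ i, wv g w (g q) i)

/-- The images of the vectors `e_i`. -/
def pa {n k : ℕ} (g : Fin n → Fin k) (w : Fin n → ℝ) (q : Fin n) (s : ℝ) (i : Fin n) :
    Fin n → ℝ :=
  if i = q then -(wv g w (g q)) + Pi.single q (1 + dl g w q s)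
  else if g i = g q then Pi.single i 1 + Pi.single q (dl g w q s) else Pi.single i 1

/-- The images of the other vertices. -/
def pb {n k : ℕ} (g : Fin n → Fin k) (w : Fin n → ℝ) (q : Fin n) (s : ℝ) (j : Fin k) :
    Fin n → ℝ :=
  if j = g q then -(wv g w (g q)) + Pi.single q (dl g w q s - 1) else -(wv g w j)

/-- The move. -/
def XF {n k : ℕ} (g : Fin n → Fin k) (w : Fin n → ℝ) (q : Fin n) (s : ℝ) : Set (Fin n → ℝ) :=
  convexHull ℝ (range (pa g w q s) ∪ range (pb g w q s))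

/-- The weights of the normal form of `XF g w q s`. -/
def ws {n k : ℕ} (g : Fin n → Fin k) (w : Fin n → ℝ) (q : Fin n) (s : ℝ) : Fin n → ℝ :=
  fun i => if i = q then s / (1 - s) else if g i = g q then w i / (1 - s) else w i

end Pool.Agent.Helper31.LW
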