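import Pool.Agent.Helper31.LW.Defs

/-!
# The simplex inequality for all affine quermassintegrals of polytopes with few vertices: goals

Each goal is a `Prop`; a packet `NAME` delivers `theorem gNAME : NAME` (hypotheses `hX : X` for the
other goals `X` that you need are allowed, also goals of project LQ:
`hX : Pool.Agent.Helper31.LQ.X`).  The paper proof is /team-store/lw_proof_6fb600.txt.
-/

open MeasureTheory Set
open scoped ENNReal Matrix
open Pool.Agent.Helper47.AQ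

noncomputable section

namespace Pool.Agent.Helper31.LW

open Pool.Agent.Helper31.LQ

/-! ### Part 1: the chart and the monotonicity -/

/-- **CHART.**  Proof (from the LQ goals `LMUL`, `GRM`, `G2A`, `CST`).
`IQ 1 f = ∫⁻ Y, f Y * eta 1 Y`, `Y = Fin.append g B`, `g : Fin d → Fin d → ℝ` (the first `d`
columns), `B : Fin m → Fin d → ℝ`; the volume of `Fin (d+m) → V` is the product
(`MeasurableEquiv.sumPiEquivProdPi`, `volume_measurePreserving_sumPiEquivProdPi`, `finSumFinEquiv`,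
`volume_measurePreserving_piCongrLeft`).  Let `M` be the matrix with the columns `g_a`, i.e.
`M = (Matrix.of g)ᵀ`; `det M ≠ 0` for almost all `g` (the zero set of the determinant is a null
set: `Matrix.of g ↦ det`, `MvPolynomial`-argument or `volume_setOf_det_eq_zero`-like lemma, see
`Pool/Agent/Helper9/LQ/GPAE.lean`).  For such `g` substitute `B = M Z` (`LMUL` with `n = m`):
`∫⁻ B, h B = ofReal(|det M|^m) ∫⁻ Z, h (M Z)`.  `Fin.append g (M Z) = M (ch Z)` columnwise, so by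
homogeneity `f (M (ch Z)) * ofReal(|det M|^(d+m)) = f (ch Z)`, and by `GRM`
`grm 1 (M (ch Z)) = M G Mᵀ`, `G = grm 1 (ch Z) = 1 + Z Zᵀ`, `det G ≥ 1 ≠ 0` (positive definite), so
`eta 1 (M (ch Z)) = ofReal(|det M|^(d+m) √(det G)^(d+m) exp(-tr(M G Mᵀ)/2))`.  The integrand becomes
`f (ch Z) * ofReal(|det M|^m √(det G)^(d+m) exp(-tr(M G Mᵀ)/2))`.  Tonelli; for fixed `Z` the
integral over `g` (replace `g` by its transpose, a measure preserving permutation of the `d * d`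
coordinates) is by `G2A` (`n = d + m`, `n - d = m`) equal to
`c = ∫⁻ g, ofReal(|det g|^m exp(-∑ g_ij²/2))`, and `0 < c < ⊤` by `CST`. -/
def CHART : Prop := ∀ d m : ℕ, 1 ≤ d → ∃ c : ℝ≥0∞, 0 < c ∧ c < ⊤ ∧
  ∀ f : (Fin (d + m) → Fin d → ℝ) → ℝ≥0∞, Measurable f →
  (∀ g : Matrix (Fin d) (Fin d) ℝ, g.det ≠ 0 → ∀ Y,
    (f fun l => g *ᵥ Y l) * ENNReal.ofReal (|g.det| ^ (d + m)) = f Y) →
  IQ 1 f = c * ∫⁻ Z : Fin m → Fin d → ℝ, f (ch Z)

/-- **SPL.**  Proof.  `MeasurableEquiv.piFinSuccAbove (fun _ => ℝ) 0` in each column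
(`volume_preserving_piFinSuccAbove`, `volume_preserving_pi` for the product over the columns), then
`MeasurableEquiv.arrowProdEquivProdArrow` (`volume_measurePreserving_arrowProdEquivProdArrow`), and
Tonelli (`lintegral_prod`, `lintegral_prod_symm`). -/
def SPL : Prop := ∀ (e m : ℕ) (h : (Fin m → Fin (e + 1) → ℝ) → ℝ≥0∞), Measurable h →
  ∫⁻ Z, h Z = ∫⁻ Z : Fin m → Fin e → ℝ, ∫⁻ b : Fin m → ℝ, h (top b Z)

/-- **VPOS.**  Proof.  `lin (ch Z)` is linear, continuous and surjective (`lin (ch Z) (Fin.append t 0)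
= t`), so the image of a body is compact (finite volume) and has nonempty interior (open map).
Measurability: `MV` of LQ composed with the continuous maps `ch`, `top`. -/
def VPOS : Prop := ∀ e m : ℕ,
  (∀ K : Set (Fin (e + 1 + m) → ℝ), IsBody K → ∀ (Z : Fin m → Fin e → ℝ) (b : Fin m → ℝ),
    0 < vN K Z b ∧ volume (lin (ch (top b Z)) '' K) = ENNReal.ofReal (vN K Z b)) ∧
  (Measurable fun p : (Fin m → Fin e → ℝ) × (Fin m → ℝ) =>
    (top p.2 p.1 : Fin m → Fin (e + 1) → ℝ)) ∧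
  (Measurable fun Z : Fin m → Fin (e + 1) → ℝ => (ch Z : Fin (e + 1 + m) → Fin (e + 1) → ℝ)) ∧
  (∀ K : Set (Fin (e + 1 + m) → ℝ), IsCompact K →
    Measurable fun p : (Fin m → Fin e → ℝ) × (Fin m → ℝ) => vN K p.1 p.2)

/-- **GAM.**  Proof.  `∫_0^∞ r^n exp(-r v) dr = n!/v^(n+1)` (`Real.integral_rpow_mul_exp_neg_mul_Ioi`
or `integral_pow_mul_exp_neg…`, `Real.Gamma_nat_eq_factorial`), `ofReal_integral_eq_lintegral_ofReal`
(integrable because the integral is not zero, or `Real.GammaIntegral_convergent`). -/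
def GAM : Prop := ∀ (n : ℕ) (v : ℝ), 0 < v → (ENNReal.ofReal v ^ (n + 1))⁻¹ =
  ENNReal.ofReal ((n.factorial : ℝ)⁻¹) *
    ∫⁻ r in Ioi (0 : ℝ), ENNReal.ofReal (r ^ n) * ENNReal.ofReal (Real.exp (-(r * v)))

/-- **CHF.**  Proof (from `CHART`, `SPL`, `VPOS`, `GAM` and `FKH` of LQ).  `CHART` with `d = e + 1`,
`f = fK (e+1) K` (`FKH`), then `SPL` (with the measurable function `Z ↦ fK (e+1) K (ch Z)`), then
`fK (e+1) K (ch (top b Z)) = (ofReal (vN K Z b) ^ (e+1+m))⁻¹` and `GAM` with `n = e + m`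
(`e + 1 + m = (e + m) + 1`), and `lintegral_lintegral_swap` for `b` and `r`.  The constant is
`c = c_CHART * ofReal (1/(e+m)!)`. -/
def CHF : Prop := ∀ e m : ℕ, ∃ c : ℝ≥0∞, 0 < c ∧ c < ⊤ ∧
  ∀ K : Set (Fin (e + 1 + m) → ℝ), IsBody K →
  IQ 1 (fK (e + 1) K) = c * ∫⁻ Z : Fin m → Fin e → ℝ, ∫⁻ r in Ioi (0 : ℝ),
    ENNReal.ofReal (r ^ (e + m)) * Ps K Z r

/-- **CONV.**  Proof.  `lin (ch (top b Z)) z = Fin.cons (z_0 + b · z'') (z' + Z z'')`, where
`z_0` is the coordinate `Fin.castAdd m 0`, `z'` are the coordinates `Fin.castAdd m (succ a)` and `z''`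
the coordinates `Fin.natAdd (e+1) l`.  For a compact set `C` of `Fin (e+1) → ℝ`:
`volume C = ∫⁻ y : Fin e → ℝ, volume {s : ℝ | Fin.cons s y ∈ C}`
(`volume_preserving_piFinSuccAbove _ 0`, `Measure.prod_apply_symm`).  Let `I_0(y)`, `I_1(y)`, `I_r(y)`
be these sections for the images of `K₀` at `b₀`, of `K₁` at `b₁`, of `L` at
`(1-r) b₀ + r b₁`.  They are compact and convex subsets of `ℝ`.  If `s ∈ I_r(y)` there is `z ∈ L` with
`z_0 + ((1-r) b₀ + r b₁) · z'' = s`, `z' + Z z'' = y`; with `x ∈ K₀`, `x' ∈ K₁` of `Fib`: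
`s₀ = x_0 + b₀ · z'' ∈ I_0(y)`, `s₁ = x'_0 + b₁ · z'' ∈ I_1(y)` and `s = (1-r) s₀ + r s₁`.  So
`|I_r(y)| ≤ (1-r) |I_0(y)| + r |I_1(y)|`: it is empty, or `I_0(y) = [a₀,c₀]`, `I_1(y) = [a₁,c₁]` are
nonempty intervals and `I_r(y) ⊆ [(1-r) a₀ + r a₁, (1-r) c₀ + r c₁]`.  Integrate over `y`. -/
def CONV : Prop := ∀ (e m : ℕ) (K₀ K₁ L : Set (Fin (e + 1 + m) → ℝ)), Convex ℝ K₀ → IsCompact K₀ →
  Convex ℝ K₁ → IsCompact K₁ → Convex ℝ L → IsCompact L → ∀ r ∈ Icc (0 : ℝ) 1,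
  Fib (Fin.castAdd m 0) K₀ K₁ L r → ∀ (Z : Fin m → Fin e → ℝ) (b₀ b₁ : Fin m → ℝ),
  vN L Z (fun l => (1 - r) * b₀ l + r * b₁ l) ≤ (1 - r) * vN K₀ Z b₀ + r * vN K₁ Z b₁

/-- **REFL.**  Proof.  `lin (ch (top b Z)) (rho x) = rho₀ (lin (ch (top (-b) Z)) x)`, `rho₀` the
reflection of `Fin (e+1) → ℝ` in the coordinate `0`, which preserves the volume
(`volume_preserving_pi` with `Measure.measurePreserving_neg`, or
`Measure.addHaar_image_linearMap`).  Second part: substitution `b ↦ -b`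
(`lintegral_comp_neg`-like, `Measure.measurePreserving_neg volume`, `.lintegral_comp_emb` with
`MeasurableEquiv.neg`). -/
def REFL : Prop := ∀ (e m : ℕ) (K : Set (Fin (e + 1 + m) → ℝ)) (Z : Fin m → Fin e → ℝ),
  (∀ b : Fin m → ℝ, vN (rho (Fin.castAdd m 0) '' K) Z b = vN K Z (-b)) ∧
  ∀ r : ℝ, Ps (rho (Fin.castAdd m 0) '' K) Z r = Ps K Z r

/-- **PLE.**  The Prékopa–Leindler inequality for bounded functions.  Proof.
`Pool.Agent.Helper9.FR.pl_all` (Pool/Agent/Helper9/FR/PL.lean) for the functions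
`f · 1_B`, `g · 1_B`, `h · 1_B`, `B = {x | ∀ i, |x i| ≤ R}` (`B` is convex, so the hypothesis holds for
the truncated functions; `0 ^ (1-t) = 0`, `0 ^ t = 0`), for `R = 1, 2, …`; both sides are finite
(`integrable`: bounded functions on a bounded set), `ofReal_integral_eq_lintegral_ofReal`,
`ENNReal.ofReal_rpow_of_nonneg`; let `R → ∞` (monotone convergence: `lintegral_iSup` or
`tendsto_setLIntegral…`, `ENNReal.continuous_rpow_const`; `ENNReal.Tendsto.mul` needs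
`a ≠ 0 ∨ b ≠ ⊤`: treat the case that one of the integrals is `0` separately). -/
def PLE : Prop := ∀ (m : ℕ) (f g h : (Fin m → ℝ) → ℝ) (t C : ℝ), 0 < t → t < 1 →
  Measurable f → Measurable g → Measurable h →
  (∀ x, 0 ≤ f x ∧ f x ≤ C) → (∀ x, 0 ≤ g x ∧ g x ≤ C) → (∀ x, 0 ≤ h x ∧ h x ≤ C) →
  (∀ x y, f x ^ (1 - t) * g y ^ t ≤ h (fun i => (1 - t) * x i + t * y i)) →
  (∫⁻ x, ENNReal.ofReal (f x)) ^ (1 - t) * (∫⁻ x, ENNReal.ofReal (g x)) ^ t ≤
    ∫⁻ x, ENNReal.ofReal (h x)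

/-- **PSF.**  Proof (from `CONV`, `REFL`, `PLE`, `VPOS`).  Fix `Z`, `r > 0`, `ψ(t) = Ps (X t) Z r`.
For `s, t ∈ [0,1]`, `0 < l < 1`: `ψ((1-l) s + l t) ≥ ψ(s)^(1-l) ψ(t)^l` by `PLE` for
`f = exp(-r vN (X s) Z ·)`, `g = exp(-r vN (X t) Z ·)`, `h = exp(-r vN (X ((1-l)s+lt)) Z ·)` (values
in `[0,1]`, measurable by `VPOS`; the hypothesis of `PLE` is `CONV` and `RFam.fib`).  `ψ(1) = ψ(0)` by
`RFam.refl` and `REFL`; so `ψ(t) ≥ ψ(0)^(1-t) ψ(1)^t = ψ(0)`.  `ψ(0) > 0` (positive integrand,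
`lintegral_pos_iff_support` or so).  Equality clause: `c = ψ(0) = ψ(1) = ψ(t) ∈ (0,⊤)`, `t' < t`:
`t = (1-l) t' + l · 1` with `0 < l < 1`, so `c ≥ ψ(t')^(1-l) c^l`, hence `ψ(t') ≤ c`; `t' > t`: the same
with `0` in the place of `1`. -/
def PSF : Prop := ∀ (e m : ℕ) (X : ℝ → Set (Fin (e + 1 + m) → ℝ)), RFam (Fin.castAdd m 0) X →
  ∀ (Z : Fin m → Fin e → ℝ) (r : ℝ), 0 < r →
  (∀ t ∈ Icc (0 : ℝ) 1, Ps (X 0) Z r ≤ Ps (X t) Z r) ∧
  (Ps (X 0) Z r < ⊤ → ∀ t ∈ Ioo (0 : ℝ) 1, Ps (X t) Z r = Ps (X 0) Z r →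
    ∀ t' ∈ Icc (0 : ℝ) 1, Ps (X t') Z r = Ps (X 0) Z r)

/-- **MY0.**  Proof (from `CHF`, `PSF`, `VPOS`, `JFIN` and `Q0P` of LQ (`(1 : Matrix).PosDef`)).
The inequality: `CHF` and `PSF` under the integral sign.  The equality clause:
`∫∫ r^(e+m) Ps (X t) Z r = ∫∫ r^(e+m) Ps (X 0) Z r < ⊤` (the constant `c` of `CHF` is in `(0,⊤)`,
`JFIN`), the integrands are ordered and measurable in `(Z, r)` (`VPOS`,
`Measurable.lintegral_prod_right'`), so they are equal and finite for almost all `(Z, r)`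
(`ae_eq_of_ae_le_of_lintegral_le`, `ae_lt_top`, on the product measure), so (`r > 0`)
`Ps (X t) Z r = Ps (X 0) Z r < ⊤`, and by `PSF` `Ps (X t') Z r = Ps (X 0) Z r` for almost all
`(Z, r)`. -/
def MY0 : Prop := ∀ (e m : ℕ) (X : ℝ → Set (Fin (e + 1 + m) → ℝ)), RFam (Fin.castAdd m 0) X →
  (∀ t ∈ Icc (0 : ℝ) 1, IQ 1 (fK (e + 1) (X 0)) ≤ IQ 1 (fK (e + 1) (X t))) ∧
  ∀ t ∈ Ioo (0 : ℝ) 1, IQ 1 (fK (e + 1) (X t)) = IQ 1 (fK (e + 1) (X 0)) →
    ∀ t' ∈ Icc (0 : ℝ) 1, IQ 1 (fK (e + 1) (X t')) = IQ 1 (fK (e + 1) (X 0))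

/-- **MYK.**  Proof (from `MY0` and `AFFJ` of LQ).  `d = e + 1`, `n = e + 1 + m` (`subst`).  Let `A` be
the linear equivalence of `Fin n → ℝ` which exchanges the coordinates `k` and `0`
(`LinearEquiv.funCongrLeft ℝ ℝ (Equiv.swap k (Fin.castAdd m 0))`).  `Y t = A '' X t` is an `RFam` for
the coordinate `0` (`IsBody.affine`, Helper47/AQ/Affine.lean).  `AFFJ` and
`volume (A '' X t) = volume (X t) ∈ (0,⊤)` (`IsBody.vol_pos`, `IsBody.vol_ne_top`,
Helper47/AQ/Body.lean; `vol_reindex` or `volume_preserving_piCongrLeft`) give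
`IQ 1 (fK d (A '' X t)) = IQ 1 (fK d (X t))`. -/
def MYK : Prop := ∀ n d : ℕ, 1 ≤ d → d ≤ n → ∀ (k : Fin n) (X : ℝ → Set (Fin n → ℝ)), RFam k X →
  (∀ t ∈ Icc (0 : ℝ) 1, IQ 1 (fK d (X 0)) ≤ IQ 1 (fK d (X t))) ∧
  ∀ t ∈ Ioo (0 : ℝ) 1, IQ 1 (fK d (X t)) = IQ 1 (fK d (X 0)) →
    ∀ t' ∈ Icc (0 : ℝ) 1, IQ 1 (fK d (X t')) = IQ 1 (fK d (X 0))

/-! ### Part 2: the move -/

/-- **XL.**  Proof.  Let `T` be the linear map with `T e_i = pa g w q s i`,
`T x = ∑ i, x i • pa g w q s i`, `W = ∑ wv g w (g q)`, `δ = dl g w q s`, `(1 + W) δ = 1 - 2 s`.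
`T (-(wv g (ws g w q s) j)) = pb g w q s j`: for `j ≠ g q` both are `-(wv g w j)`; for `j = g q` it is
`-(s/(1-s)) (y + (1+δ) e_q) - ∑_{i ≠ q, g i = g q} (w_i/(1-s)) (e_i + δ e_q)
= y - ((s (1+δ) + W δ)/(1-s)) e_q = y + (δ - 1) e_q` with `y = -(wv g w (g q))` (as `w_q = 0`).
So `T '' NF = XF` (`LinearMap.image_convexHull`).  `T` is injective: `T x = 0`; for the coordinate
`i ≠ q` with `g i = g q`: `x_i = x_q w_i`; for `g i ≠ g q`: `x_i = 0`; for `q`: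
`0 = x_q (1 + δ) + ∑_{i ≠ q, g i = g q} x_i δ = x_q (1 + δ + W δ) = 2 (1-s) x_q`, so `x_q = 0`
(`LinearEquiv.ofInjectiveEndo`). -/
def XL : Prop := ∀ (n k : ℕ) (g : Fin n → Fin k) (w : Fin n → ℝ) (q : Fin n), (∀ i, 0 ≤ w i) →
  w q = 0 → ∀ s : ℝ, 0 ≤ s → s < 1 → ∃ T : (Fin n → ℝ) ≃ₗ[ℝ] (Fin n → ℝ),
  T '' NF g (ws g w q s) = XF g w q s

/-- **XFB.**  Proof (from `XL`).  `body`: compact (finitely many points) and convex; for `s < 1` by
`XL` the interior is nonempty because `NF g (ws g w q s)` has nonempty interior: with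
`v = ws g w q s ≥ 0`, `0 = (1/(1+V)) (-(wv g v (g q))) + ∑_i (wv g v (g q) i/(1+V)) e_i ∈ NF`,
`V = ∑ wv g v (g q)`, and the hull of `0` and the `e_i` contains the box `(0, 1/(n+1))^n`; for
`s = 1` by `refl`.  `fib`: the points are affine functions of `s`, only the coordinate `q` depends
on `s` (`pa g w q s i = P_i + dl g w q s * α_i e_q`, `dl` is affine in `s`): if
`z = ∑ c_i pa((1-r)s+rt) i + ∑ c'_j pb((1-r)s+rt) j` take the same combinations of the points at `s`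
and at `t`.  (Convex combinations of `range f ∪ range g'`: `mem_convexHull_iff_exists_fintype`-like
with the index type `Fin n ⊕ Fin k`, `Sum.elim`, `range (Sum.elim f g') = range f ∪ range g'`.)
`refl`: `rho q` is linear; `rho q (pa 0 q) = pb 1 (g q)`, `rho q (pb 0 (g q)) = pa 1 q`,
`rho q (pa 0 i) = pa 1 i` for `i ≠ q`, `rho q (pb 0 j) = pb 1 j` for `j ≠ g q` (use `w_q = 0`,
`dl 1 = - dl 0`). -/
def XFB : Prop := ∀ (n k : ℕ) (g : Fin n → Fin k) (w : Fin n → ℝ) (q : Fin n), (∀ i, 0 ≤ w i) →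
  w q = 0 → RFam q (XF g w q)

/-- **XV.**  Proof.  Let `B = {i // g i = g q}`, `C = {i // g i ≠ g q}`, `y = -(wv g w (g q))`
restricted to `B`, `Q_s ⊆ ℝ^B` the convex hull of `y + (1+δ) e_q`, `y + (δ-1) e_q`, `e_i + δ e_q`
(`i ∈ B`, `i ≠ q`), `A ⊆ ℝ^C` the convex hull of `0`, `e_i` (`i ∈ C`), `-(wv g w j)` (`j ≠ g q`,
restricted to `C`).  `Q_s = Q + δ e_q` for a fixed `Q`, so `volume Q_s` does not depend on `s`.
`0 ∈ Q_s`: with `m₀ = 1/(1+W)`, `|δ| ≤ m₀`: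
`0 = ((m₀-δ)/2) (y + (1+δ) e_q) + ((m₀+δ)/2) (y + (δ-1) e_q) + ∑_{i ∈ B, i ≠ q} m₀ w_i (e_i + δ e_q)`.
`Q_s` and `A` are bodies: `Q` is the convex hull of `|B| + 1` affinely independent points (the sum of
the coordinates off `q` is `1` at `e_i` and `-W ≤ 0` at `y ± e_q`), `A` contains the hull of `0` and
the `e_i`.  Up to the reindexing `Fin n ≃ B ⊕ C` (`Equiv.sumCompl`, `vol_reindex`,
Helper47/AQ/Affine.lean) `XF g w q s = freeSum Q_s A` (`0 ∈ Q_s ⊆ XF`, so `A ⊆ XF`), and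
`vol_freeSum` (Helper47/AQ/FreeSum.lean) gives `volume (XF g w q s)` in terms of `volume Q_s` and
`volume A`.  (Another way: `volume (NF g w) = ofReal (∏_j (1 + ∑ wv g w j)/n!)` and the determinant
`2 (1-s)` of the map of `XL`; for `s = 1` the reflection.) -/
def XV : Prop := ∀ (n k : ℕ) (g : Fin n → Fin k) (w : Fin n → ℝ) (q : Fin n), (∀ i, 0 ≤ w i) →
  w q = 0 → ∀ s ∈ Icc (0 : ℝ) 1, volume (XF g w q s) = volume (XF g w q 0)

/-- **NEARX.**  Proof (from `XV`).  Let `S = XF g w q 0`, `c` an interior point of `S`,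
`D = (1+η)(S - c) + c`, `η > 0`: `D` is a simplex (`IsSimplex.affine`) and contains a neighbourhood
of `S` (`S ⊆ interior D`, a convexity lemma: for `x ∈ S`, `x = c + (1+η)⁻¹ ((1+η)(x-c))`…, or:
`c + B_ρ ⊆ S` gives `x + η B_ρ ⊆ D`).  The points `pa g w q s i`, `pb g w q s j` are continuous
functions of `s` and in `S` for `s = 0`, finitely many, so they are in `D` for small `s > 0`, hence
`XF g w q s ⊆ D`.  `volume D = (1+η)^n volume S`, `volume (XF g w q s) = volume S` (`XV`); choose `η`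
with `(1-ε) (1+η)^n ≤ 1`. -/
def NEARX : Prop := ∀ (n k : ℕ) (g : Fin n → Fin k) (w : Fin n → ℝ) (q : Fin n), (∀ i, 0 ≤ w i) →
  w q = 0 → IsSimplex (XF g w q 0) → ∀ ε : ℝ, 0 < ε → ∃ s : ℝ, 0 < s ∧ s < 1 ∧
  ∃ D : Set (Fin n → ℝ), IsSimplex D ∧ XF g w q s ⊆ D ∧
    (1 - ε) * (volume D).toReal ≤ (volume (XF g w q s)).toReal

/-! ### Part 3: the normal form -/

/-- **NORM.**  Proof.  For each group `j`: `p = ∑_{g a = j} c_a x_a`, `c_a ≥ 0`, `∑_{g a = j} c_a = 1`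
(one function `c : Fin (n+k) → ℝ` for all groups).  Choose `a_j` with `g a_j = j`, `c_(a_j) > 0`; `j ↦
a_j` is injective.  The other indices `{a // a ∉ range}` are `n` many; let `φ : Fin n ≃ {a // …}`,
`u_i = x_(φ i) - p`.  `x_(a_j) - p = -∑_{i : g (φ i) = j} (c_(φ i)/c_(a_j)) u_i`.  Let
`T x = ∑ x_i u_i + p`.  All `x_a` are in the range of `T`, so is the convex hull, which has nonempty
interior, so the linear map `x ↦ ∑ x_i u_i` is surjective, hence bijective (dimension `n`).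
`g' i = g (φ i)`, `w i = c_(φ i)/c_(a_(g' i))`: `T e_i = x_(φ i)`, `T (-(wv g' w j)) = x_(a_j)`, so
`T '' NF g' w = convexHull (range x)` (`AffineMap.image_convexHull`). -/
def NORM : Prop := ∀ (n k : ℕ), 1 ≤ k → ∀ (x : Fin (n + k) → Fin n → ℝ) (g : Fin (n + k) → Fin k)
  (p : Fin n → ℝ), (interior (convexHull ℝ (range x))).Nonempty →
  (∀ j, p ∈ convexHull ℝ (x '' {a | g a = j})) →
  ∃ (g' : Fin n → Fin k) (w : Fin n → ℝ) (A : (Fin n → ℝ) ≃ᵃ[ℝ] (Fin n → ℝ)),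
    (∀ i, 0 ≤ w i) ∧ convexHull ℝ (range x) = A '' NF g' w

/-- **SPX.**  Proof.  `wv g w j = w` and `wv g w j' = 0` for `j' ≠ j`.  Let `S` be the convex hull of
the `n + 1` points `e_i`, `-w` (`Option (Fin n)` or `Fin (n+1)`), `W = ∑ w`.
`0 = (1/(1+W)) (-w) + ∑ (w_i/(1+W)) e_i ∈ S`, so `NF g w = S`.  The points are affinely independent:
`∑ c_i e_i - c w = 0`, `∑ c_i + c = 0` give `c_i = c w_i`, `c (1 + W) = 0`, `c = 0`.  The interior is
nonempty: `S` contains the hull of `0` and the `e_i`. -/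
def SPX : Prop := ∀ (n k : ℕ), 1 ≤ n → ∀ (g : Fin n → Fin k) (w : Fin n → ℝ), (∀ i, 0 ≤ w i) →
  (∃ j : Fin k, ∀ i, g i ≠ j → w i = 0) → IsSimplex (NF g w)

/-- **NSPX.**  Proof.  Suppose `NF g w = convexHull (range v)`, `v : σ → ℝ^n` affinely independent, so
`card σ ≤ n + 1` (`AffineIndependent.card_le_finrank_succ`).  Each of the `n + 2` different points
`e_i`, `-(wv g w (g i₁))`, `-(wv g w (g i₂))` is in `range v`: it is the unique maximum on `NF g w` of a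
linear functional, `x_i`, resp. `-x_(i₁)`, `-x_(i₂)` (at the other points of the list it is `≤ 0`), so
it is an extreme point (`extremePoints_convexHull_subset`); or directly: a point `u` of
`convexHull (range v)` with `f(v_a) < f(u)` for all `a` with `v_a ≠ u` is one of the `v_a`.
Contradiction. -/
def NSPX : Prop := ∀ (n k : ℕ) (g : Fin n → Fin k) (w : Fin n → ℝ), (∀ i, 0 ≤ w i) →
  ∀ i₁ i₂ : Fin n, 0 < w i₁ → 0 < w i₂ → g i₁ ≠ g i₂ → ¬ IsSimplex (NF g w)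

end Pool.Agent.Helper31.LW
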